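import Pool.Agent.QPIT.VFinal
import Pool.Agent.QPIT.GenP

/-!
# Identity tests for circuits of constant depth in deterministic quasi-polynomial time
-/

set_option autoImplicit false

namespace Pool.Agent.Results.MP_b6562f_lc.ConstantDepthIdentities

open Finset MvPolynomial

/-- `P 0, ..., P (s - 1)` are the polynomials at the `s` gates of an arithmetic circuit over the
field `K` with at most `k` product gates or arbitrary gates on each path. Every gate is a sum
gate: a linear combination of the constant `1`, of the variables and of earlier gates; or a product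
gate: a constant times a product of powers of variables and of earlier gates; or an arbitrary
gate: any polynomial in `w` earlier gates. -/
def IsCircuit {σ K : Type} [Fintype σ] [Field K] (k w : ℕ) {s : ℕ}
    (P : Fin s → MvPolynomial σ K) : Prop :=
  ∃ depth : Fin s → ℕ, ∀ g, depth g ≤ k ∧
    ((∃ (a₀ : K) (a : σ → K) (c : Fin s → K), (∀ h, c h ≠ 0 → h < g ∧ depth h ≤ depth g) ∧
        P g = C a₀ + ∑ v, C (a v) * X v + ∑ h, C (c h) * P h) ∨
     (∃ (a₀ : K) (a : σ → ℕ) (e : Fin s → ℕ), 0 < depth g ∧
        (∀ h, e h ≠ 0 → h < g ∧ depth h < depth g) ∧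
        P g = C a₀ * (∏ v, X v ^ a v) * ∏ h, P h ^ e h) ∨
     (∃ (t : Fin w → Fin s) (Q : MvPolynomial (Fin w) K), 0 < depth g ∧
        (∀ i, t i < g ∧ depth (t i) < depth g) ∧ P g = aeval (fun i => P (t i)) Q))

/-- the least prime number `p ≥ m` -/
def prime (m : ℕ) : ℕ := Nat.find (Nat.exists_infinite_primes m)

instance (m : ℕ) : NeZero (prime m) :=
  ⟨(Nat.find_spec (Nat.exists_infinite_primes m)).2.ne_zero⟩

/-- the value at `a` of the polynomial over `ℤ/p` whose coefficients are the first `r` digits of
`i` in base `p` -/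
def digits (p r i a : ℕ) [NeZero p] : Fin p := Fin.ofNat p (∑ t ∈ range r, (i / p ^ t % p) * a ^ t)

/-- the places: `(j, a, b)` is the entry `(a, b)` of the matrix `j`, for `d` matrices of size
`256 d ^ 3 + 1` -/
abbrev Place (d : ℕ) : Type := Fin d × Fin (256 * d ^ 3 + 1) × Fin (256 * d ^ 3 + 1)

/-- the number of the place `(j, a, b)` -/
def number {d : ℕ} (v : Place d) : ℕ :=
  (v.1.val * (256 * d ^ 3 + 1) + v.2.1.val) * (256 * d ^ 3 + 1) + v.2.2.val

/-- the seed variables: `p` variables for each place, `p` is the least prime which is at least the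
number of the places -/
abbrev Seed (d : ℕ) : Type := Place d × Fin (prime (d * (256 * d ^ 3 + 1) ^ 2))

/-- **the generator**, `n` polynomials in the seed variables, at `z`: the component `i` is the entry
`(0, 0)` of the product of `d` matrices, whose entry at the place `v` is the seed variable
`z (v, q)`, `q` the value at the number of `v` of the polynomial over `ℤ/p` whose coefficients are
the first `log₂ n + 1` digits of `i` in base `p` -/
def generator {R : Type} [CommSemiring R] (d n : ℕ) (z : Seed d → R) (i : Fin n) : R :=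
  (List.ofFn fun j : Fin d => (Matrix.of fun a b =>
    z ((j, a, b), digits _ (Nat.log 2 n + 1) i (number (j, a, b))) :
      Matrix (Fin (256 * d ^ 3 + 1)) (Fin (256 * d ^ 3 + 1)) R)).prod 0 0

/-- **the test points**: the values of the generator for all natural numbers `z ≤ D` -/
def testPoints (d n D : ℕ) : Finset (Fin n → ℕ) :=
  (Fintype.piFinset fun _ : Seed d => range (D + 1)).image (generator d n)

/-- the number of the matrices for circuits with `s` gates, at most `k` product or arbitrary
gates on each path and arbitrary gates of fan-in `w` -/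
def len (k w s : ℕ) : ℕ :=
  (100 * Nat.fib (2 * k + 4) * w * (Nat.log 2 s + 1)) ^ (3 * Nat.fib (2 * k + 4))

theorem generator_X {K : Type} [Field K] (d n : ℕ) :
    generator d n (X : Seed d → MvPolynomial (Seed d) K) = Pool.QPIT.genV d n K :=
  funext fun i => (Pool.QPIT.genP_eq d (256 * d ^ 3) _ (Nat.log 2 n + 1) n K i).symm

/-- Let `d = (100 F w (log₂ s + 1)) ^ (3 F)`, `F` the Fibonacci number of index `2 k + 4`.
There are at most `(D + 1) ^ (10 ^ 10 d ^ 14)` test points, with coordinates at most
`(D + 1) ^ (258 d ^ 4)`, and at most `10 ^ 10 d ^ 14` seed variables. For every field `K` with a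
valuation `v` such that `v (m) = 1` for `1 ≤ m ≤ D`, and every polynomial `P` of degree at most `D`
computed over `K` by a circuit with at most `s` gates: the value of `P` at some test point is at
least as large as all coefficients of `P`, and so is some coefficient of `P` after the substitution
of the generator. In particular, over every field of characteristic zero or larger than `D`, such a
polynomial is zero if it is zero at the test points, or after the substitution. -/
theorem result (k w s n D : ℕ) (hk : 1 ≤ k) (hw : 1 ≤ w) (hs : 2 ≤ s) (hn : n ≤ s) :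
    (testPoints (len k w s) n D).card ≤ (D + 1) ^ (10 ^ 10 * len k w s ^ 14) ∧
    (∀ x ∈ testPoints (len k w s) n D, ∀ i, x i ≤ (D + 1) ^ (258 * len k w s ^ 4)) ∧
    Fintype.card (Seed (len k w s)) ≤ 10 ^ 10 * len k w s ^ 14 ∧
    (∀ (K Γ : Type) [Field K] [LinearOrderedCommGroupWithZero Γ] (v : Valuation K Γ),
      (∀ m : ℕ, 1 ≤ m → m ≤ D → v (m : K) = 1) → ∀ s' : ℕ, s' ≤ s →
      ∀ P : Fin s' → MvPolynomial (Fin n) K, IsCircuit k w P → ∀ g, (P g).totalDegree ≤ D →
        (∃ x ∈ testPoints (len k w s) n D, ∀ m,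
          v (coeff m (P g)) ≤ v (eval (fun i => (x i : K)) (P g))) ∧
        ∃ m', ∀ m, v (coeff m (P g)) ≤ v (coeff m' (aeval (generator (len k w s) n
          (X : Seed (len k w s) → MvPolynomial (Seed (len k w s)) K)) (P g)))) ∧
    ∀ (K : Type) [Field K], (∀ m : ℕ, 1 ≤ m → m ≤ D → (m : K) ≠ 0) → ∀ s' : ℕ, s' ≤ s →
      ∀ P : Fin s' → MvPolynomial (Fin n) K, IsCircuit k w P → ∀ g, (P g).totalDegree ≤ D →
        (P g = 0 ↔ ∀ x ∈ testPoints (len k w s) n D, eval (fun i => (x i : K)) (P g) = 0) ∧
        (P g = 0 ↔ aeval (generator (len k w s) n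
          (X : Seed (len k w s) → MvPolynomial (Seed (len k w s)) K)) (P g) = 0) := by
  classical
  obtain ⟨k, rfl⟩ : ∃ m, k = m + 1 := ⟨k - 1, by omega⟩
  have hfib : 3 ≤ Nat.fib (2 * (k + 1) + 4) := by
    have : Nat.fib 4 ≤ Nat.fib (2 * (k + 1) + 4) := Nat.fib_mono (by omega)
    exact this
  have hd : 2 ≤ len (k + 1) w s := Pool.QPIT.two_le_ddU (by omega) hw s
  have main : ∀ (K Γ : Type) [Field K] [LinearOrderedCommGroupWithZero Γ] (v : Valuation K Γ),
      (∀ m : ℕ, 1 ≤ m → m ≤ D → v (m : K) = 1) → ∀ s' : ℕ, s' ≤ s →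
      ∀ P : Fin s' → MvPolynomial (Fin n) K, IsCircuit (k + 1) w P → ∀ g,
        (P g).totalDegree ≤ D →
        (∃ x ∈ testPoints (len (k + 1) w s) n D, ∀ m,
          v (coeff m (P g)) ≤ v (eval (fun i => (x i : K)) (P g))) ∧
        ∃ m', ∀ m, v (coeff m (P g)) ≤ v (coeff m' (aeval (generator (len (k + 1) w s) n
          (X : Seed (len (k + 1) w s) → MvPolynomial (Seed (len (k + 1) w s)) K)) (P g))) := by
    intro K Γ _ _ v hv s' hs' P hP g hgD
    rw [generator_X]
    by_cases hg : P g = 0
    · refine ⟨⟨_, mem_image.2 ⟨fun _ => 0, Fintype.mem_piFinset.2 fun _ => mem_range.2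
        (Nat.succ_pos D), rfl⟩, fun m => ?_⟩, 0, fun m => ?_⟩ <;>
      · rw [hg, coeff_zero, map_zero]
        exact zero_le
    · obtain ⟨f, hf, hfP⟩ := Pool.QPIT.circuit_sumW (S := s' + n + 1) hw
        (by rw [Fintype.card_fin]) hP g
      exact ⟨Pool.QPIT.hit_val v hw hs hn (by omega) (by omega) (by omega)
        (by nlinarith) hv (P g) hg hgD f hf hfP,
        Pool.QPIT.gen_val v hw hs hn (by omega) (by omega) (by omega)
        (by nlinarith) hv (P g) hg hgD f hf hfP⟩
  refine ⟨Pool.QPIT.hittingV_card (by omega) n D,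
    fun x hx i => Pool.QPIT.hittingV_le (by omega) hx i, Pool.QPIT.genV_card (by omega), main, ?_⟩
  intro K _ hK s' hs' P hP g hgD
  obtain ⟨⟨x, hx, h1⟩, m', h2⟩ := main K (WithZero (Multiplicative ℤ)) 1 (fun m hm1 hm2 => by
    rw [Valuation.one_apply_of_ne_zero (hK m hm1 hm2)]) s' hs' P hP g hgD
  have h3 : ∀ a : K, (1 : Valuation K (WithZero (Multiplicative ℤ))) a ≤ 0 → a = 0 := by
    intro a ha
    by_contra h
    rw [Valuation.one_apply_of_ne_zero h] at ha
    exact absurd ha (by simp)
  refine ⟨⟨fun h x _ => by rw [h, map_zero], fun h => ?_⟩, fun h => by rw [h, map_zero],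
    fun h => ?_⟩
  · ext m
    rw [coeff_zero]
    apply h3
    have h4 := h1 m
    rwa [h x hx, map_zero] at h4
  · ext m
    rw [coeff_zero]
    apply h3
    have h4 := h2 m
    rwa [h, coeff_zero, map_zero] at h4

end Pool.Agent.Results.MP_b6562f_lc.ConstantDepthIdentities
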