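import Pool.Agent.NTS.Main
import Pool.Agent.NTS.AbsMain

/-!
# One-pass randomised computation against nondeterministic time `(1 + δ) n`

An explicit Boolean function `Hard` on `n` bits which is decided, with one-sided error `1 / n`, by
random one-pass programs with polynomially many states (memory `O(log n)` bits, `O(log n)` random
bits, every reading order), but not by nondeterministic branching programs with fewer than
`2 ^ (δ n)` nodes in time `(1 + δ) n`.
-/

namespace Pool.Agent.Results.MP_b6562f_lc.NondeterministicTime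

open Finset Polynomial

/-- The input bits: `x_j` (for `j < d`) and `a_K` (for the subsets `K` of `{0, ..., d - 1}` with 4
elements) have `m` bits each, `y` has `5 m` bits, and there is one more bit `b`. -/
inductive Bit (d m : ℕ) : Type
  | x (j : Fin d) (i : Fin m)
  | a (K : {K : Finset (Fin d) // K.card = 4}) (i : Fin m)
  | y (i : Fin (5 * m))
  | b

/-- The polynomial over the field with two elements with the given coefficients. -/
noncomputable def poly {m : ℕ} (v : Fin m → Bool) : (ZMod 2)[X] :=
  ∑ i, if v i then X ^ (i : ℕ) else 0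

/-- The hard function: `y = ∑_K a_K ∏_{j ∈ K} x_j` as polynomials over the field with two elements,
and the number of ones in the input is even. -/
def Hard {d m : ℕ} (z : Bit d m → Bool) : Prop :=
  poly (fun i => z (.y i)) =
      ∑ K : {K : Finset (Fin d) // K.card = 4},
        poly (fun i => z (.a K i)) * ∏ j ∈ K.1, poly (fun i => z (.x j i)) ∧
    Even (Nat.card {v : Bit d m // z v = true})

/-- A nondeterministic branching program with `s` nodes which reads input bits indexed by `I`:
a directed graph on the nodes with a start node and an accepting node. `edge u none v` says that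
there is a free edge from `u` to `v`, and `edge u (some (i, c)) v` that there is an edge from `u`
to `v` which tests whether bit `i` has the value `c`. -/
structure NBP (I : Type) (s : ℕ) where
  start : Fin s
  accept : Fin s
  edge : Fin s → Option (I × Bool) → Fin s → Prop

/-- `P.Path z u t v`: there is a path from `u` to `v` all of whose tests are passed by the input
`z`, and which contains exactly `t` tests (a bit which is tested again is counted again). -/
inductive NBP.Path {I : Type} {s : ℕ} (P : NBP I s) (z : I → Bool) : Fin s → ℕ → Fin s → Prop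
  | stop (u : Fin s) : NBP.Path P z u 0 u
  | free {u v w : Fin s} {t : ℕ} : P.edge u none v → NBP.Path P z v t w → NBP.Path P z u t w
  | test {u v w : Fin s} {t : ℕ} (i : I) : P.edge u (some (i, z i)) v → NBP.Path P z v t w →
      NBP.Path P z u (t + 1) w

/-- The input `z` is accepted. -/
def NBP.Accepts {I : Type} {s : ℕ} (P : NBP I s) (z : I → Bool) : Prop :=
  ∃ t, P.Path z P.start t P.accept

/-- The input `z` is accepted in time `T`, that is by a path with at most `T` tests. -/
def NBP.AcceptsInTime {I : Type} {s : ℕ} (P : NBP I s) (z : I → Bool) (T : ℝ) : Prop :=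
  ∃ t : ℕ, (t : ℝ) ≤ T ∧ P.Path z P.start t P.accept

/-- A deterministic one-pass program with `s` states, which reads each of the bits
`0, 1, ..., n - 1` once, in this order. -/
structure OnePass (n s : ℕ) where
  first : Fin s
  step : Fin n → Fin s → Bool → Fin s
  good : Fin s → Prop

/-- The state after reading all bits is good (the program accepts `z`). -/
def OnePass.Says {n s : ℕ} (R : OnePass n s) (z : Fin n → Bool) : Prop :=
  R.good (Fin.foldl n (fun q i => R.step i q (z i)) R.first)

/-! ### Translation to the definitions used in the proof -/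

/-- renaming of the bits -/
def toBit {d m : ℕ} : NTS.Var d m → Bit d m
  | .inl (.inl (j, i)) => .x j i
  | .inl (.inr (.inl i)) => .y i
  | .inl (.inr (.inr ())) => .b
  | .inr (K, i) => .a K i

/-- renaming of the bits -/
def ofBit {d m : ℕ} : Bit d m → NTS.Var d m
  | .x j i => .inl (.inl (j, i))
  | .y i => .inl (.inr (.inl i))
  | .b => .inl (.inr (.inr ()))
  | .a K i => .inr (K, i)

/-- renaming of the bits -/
def bits (d m : ℕ) : NTS.Var d m ≃ Bit d m where
  toFun := toBit
  invFun := ofBit
  left_inv := by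
    rintro ((⟨j, i⟩ | i | ⟨⟩) | ⟨K, i⟩) <;> rfl
  right_inv := by
    rintro (⟨j, i⟩ | ⟨K, i⟩ | i | _) <;> rfl

theorem hard_iff {d m : ℕ} (z : Bit d m → Bool) : Hard z ↔ NTS.Hard (z ∘ bits d m) := by
  have h1 : Nat.card {v : Bit d m // z v = true} =
      (univ.filter fun v => (z ∘ bits d m) v = true).card := by
    rw [← Fintype.card_subtype, ← Nat.card_eq_fintype_card]
    exact Nat.card_congr ((bits d m).symm.subtypeEquiv fun v => by simp)
  unfold Hard
  rw [h1]
  exact Iff.rfl

theorem hard_iff' {d m : ℕ} (x : NTS.Var d m → Bool) : NTS.Hard x ↔ Hard (x ∘ (bits d m).symm) := by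
  rw [hard_iff]
  have : (x ∘ (bits d m).symm) ∘ bits d m = x := by
    funext v; simp
  rw [this]

/-- renaming of the bits in a program -/
def prog {d m s : ℕ} (P : NBP (Bit d m) s) : NTS.Prog (NTS.Var d m) s where
  start := P.start
  accept := P.accept
  edge := fun u o v => P.edge u (o.map fun p => (bits d m p.1, p.2)) v

theorem run_of_path {d m s : ℕ} {P : NBP (Bit d m) s} {z : Bit d m → Bool} {u v : Fin s} {t : ℕ}
    (h : P.Path z u t v) : ∃ l, l.length = t ∧ NTS.Run (prog P) (z ∘ bits d m) u l v := by
  induction h with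
  | stop u => exact ⟨[], rfl, NTS.Run.stop u⟩
  | free he _ ih =>
    obtain ⟨l, hl, hr⟩ := ih
    exact ⟨l, hl, NTS.Run.free he hr⟩
  | @test u v w t i he _ ih =>
    obtain ⟨l, hl, hr⟩ := ih
    refine ⟨(bits d m).symm i :: l, by simp [hl], NTS.Run.test (v := v) ?_ hr⟩
    show P.edge u (some (bits d m ((bits d m).symm i), z (bits d m ((bits d m).symm i)))) v
    rw [Equiv.apply_symm_apply]
    exact he

theorem path_of_run {d m s : ℕ} {P : NBP (Bit d m) s} {z : Bit d m → Bool} {u v : Fin s}
    {l : List (NTS.Var d m)} (h : NTS.Run (prog P) (z ∘ bits d m) u l v) :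
    P.Path z u l.length v := by
  induction h with
  | stop u => exact NBP.Path.stop u
  | free he _ ih => exact NBP.Path.free he ih
  | @test u v w i l he _ ih => exact NBP.Path.test (bits d m i) he ih

theorem accepts_iff {d m s : ℕ} {P : NBP (Bit d m) s} {z : Bit d m → Bool} :
    P.Accepts z ↔ (prog P).Accepts (z ∘ bits d m) := by
  constructor
  · rintro ⟨t, ht⟩
    obtain ⟨l, _, hl⟩ := run_of_path ht
    exact ⟨l, hl⟩
  · rintro ⟨l, hl⟩
    exact ⟨l.length, path_of_run hl⟩

theorem acceptsIn_iff {d m s : ℕ} {P : NBP (Bit d m) s} {z : Bit d m → Bool} {T : ℝ} :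
    P.AcceptsInTime z T ↔ (prog P).AcceptsIn (z ∘ bits d m) T := by
  constructor
  · rintro ⟨t, hT, ht⟩
    obtain ⟨l, hl, hr⟩ := run_of_path ht
    exact ⟨l, by rw [hl]; exact hT, hr⟩
  · rintro ⟨l, hT, hl⟩
    exact ⟨l.length, hT, path_of_run hl⟩

/-- renaming of the bits does not change the number of inputs -/
theorem ncard_rename {d m : ℕ} (A : (Bit d m → Bool) → Prop) (B : (NTS.Var d m → Bool) → Prop)
    (h : ∀ z, A z ↔ B (z ∘ bits d m)) : Set.ncard {x | B x} = Nat.card {z // A z} := by
  rw [← Nat.card_coe_set_eq]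
  refine (Nat.card_congr ?_).symm
  exact {
    toFun := fun z => ⟨z.1 ∘ bits d m, (h z.1).1 z.2⟩
    invFun := fun x => ⟨x.1 ∘ (bits d m).symm, (h _).2 (by
      have : (x.1 ∘ (bits d m).symm) ∘ bits d m = x.1 := by funext v; simp
      rw [this]; exact x.2)⟩
    left_inv := fun z => by
      apply Subtype.ext; funext v; simp
    right_inv := fun x => by
      apply Subtype.ext; funext v; simp }

/-- **Theorem.** (i) `Hard` is decided by random one-pass programs with polynomially many states and
coin outcomes, with one-sided error `1 / n`, in every reading order; (ii) a nondeterministic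
branching program which accepts only inputs in `Hard`, and at least a fraction `2 ^ (- δ n)` of
them in time `(1 + δ) n`, has at least `2 ^ (δ n)` nodes. -/
theorem result : ∃ d₀ : ℕ, ∀ d : ℕ, d₀ ≤ d → ∃ (C : ℕ) (δ : ℝ), 0 < δ ∧ ∃ m₀ : ℕ, ∀ m n : ℕ,
    m₀ ≤ m → n = Nat.card (Bit d m) →
    (∀ order : Bit d m ≃ Fin n, ∃ (r : ℕ) (R : Fin r → OnePass n (n ^ C)), 0 < r ∧ r ≤ n ^ C ∧
      ∀ z : Bit d m → Bool,
        (Hard z → ∀ ω, (R ω).Says (z ∘ order.symm)) ∧
        (¬ Hard z → (Nat.card {ω // (R ω).Says (z ∘ order.symm)} : ℝ) ≤ r / n)) ∧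
    ∀ (s : ℕ) (P : NBP (Bit d m) s), (∀ z, P.Accepts z → Hard z) →
      (2 : ℝ) ^ (-(δ * n)) * Nat.card {z : Bit d m → Bool // Hard z} ≤
        Nat.card {z : Bit d m → Bool // P.AcceptsInTime z ((1 + δ) * n)} →
      (2 : ℝ) ^ (δ * n) ≤ s := by
  classical
  obtain ⟨d₀, hd₀⟩ := NTS.lower NTS.Cls.main
  refine ⟨d₀, fun d hd => ?_⟩
  obtain ⟨δ, hδ, hlow⟩ := hd₀ d hd
  obtain ⟨C, hC⟩ := NTS.onePass d
  refine ⟨C, δ, hδ, ?_⟩
  obtain ⟨m₀, hm₀⟩ := Filter.eventually_atTop.1 (hlow.and hC)
  refine ⟨m₀, fun m n hm hn => ?_⟩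
  obtain ⟨h1, h2⟩ := hm₀ m hm
  have hn' : n = Fintype.card (NTS.Var d m) := by
    rw [hn, ← Nat.card_eq_fintype_card]; exact (Nat.card_congr (bits d m)).symm
  refine ⟨fun order => ?_, fun s P hP hbig => ?_⟩
  · obtain ⟨Ω, hF, hne, R, hcard, hR⟩ := h2 n ((bits d m).trans order)
    let e : Ω ≃ Fin (Fintype.card Ω) := Fintype.equivFin Ω
    have hacc : ∀ (ω : Ω) (z : Bit d m → Bool),
        OnePass.Says (⟨(R ω).start, (R ω).step, (R ω).acc⟩ : OnePass n (n ^ C))
          (z ∘ order.symm) ↔
        (R ω).Accepts ((z ∘ bits d m) ∘ ((bits d m).trans order).symm) := by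
      intro ω z
      have h3 : (z ∘ bits d m) ∘ ((bits d m).trans order).symm = z ∘ order.symm := by
        funext i; simp
      rw [h3]
      exact Iff.rfl
    refine ⟨Fintype.card Ω, fun i => ⟨(R (e.symm i)).start, (R (e.symm i)).step,
      (R (e.symm i)).acc⟩, Fintype.card_pos, hcard, fun z => ?_⟩
    obtain ⟨h4, h5⟩ := hR (z ∘ bits d m)
    refine ⟨fun hz i => ?_, fun hz => ?_⟩
    · exact (hacc (e.symm i) z).2 (h4 ((hard_iff z).1 hz) (e.symm i))
    · have h6 := h5 fun h => hz ((hard_iff z).2 h)
      refine le_trans (le_of_eq ?_) h6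
      have h7 : Nat.card {i : Fin (Fintype.card Ω) // OnePass.Says
          (⟨(R (e.symm i)).start, (R (e.symm i)).step, (R (e.symm i)).acc⟩ :
            OnePass n (n ^ C)) (z ∘ order.symm)} =
          Nat.card {ω : Ω // (R ω).Accepts ((z ∘ bits d m) ∘ ((bits d m).trans order).symm)} :=
        Nat.card_congr (e.symm.subtypeEquiv fun i => hacc (e.symm i) z)
      rw [h7, Nat.card_eq_fintype_card, Fintype.card_subtype]
  · rw [hn'] at hbig ⊢
    refine h1 s (prog P) (fun x hx => ?_) ?_
    · rw [hard_iff']
      refine hP _ (accepts_iff.2 ?_)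
      have : (x ∘ (bits d m).symm) ∘ bits d m = x := by funext v; simp
      rw [this]; exact hx
    · rw [ncard_rename (fun z => Hard z) (fun x => NTS.Hard x) hard_iff,
        ncard_rename (fun z => P.AcceptsInTime z ((1 + δ) * Fintype.card (NTS.Var d m)))
          (fun x => (prog P).AcceptsIn x ((1 + δ) * Fintype.card (NTS.Var d m)))
          (fun z => acceptsIn_iff)]
      exact hbig

end Pool.Agent.Results.MP_b6562f_lc.NondeterministicTime
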