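import Pool.Agent.TSP.Lang

/-!
# A time-space tradeoff for Boolean branching programs with two-sided error

An explicit Boolean function `hard N` on `N` bits (computable in polynomial time) such that every
random branching program with `2 ^ S` states per time step and
`T ≤ c N log (N / S) / log log (N / S)` steps computes it correctly on a random input with
probability at most `1 / 2 + (S / N) ^ c`.
-/

namespace Pool.Agent.Results.MP_b6562f_lc.TimeSpace

open Finset Polynomial

/-- A (deterministic, non-uniform) branching program on `N` input bits with `W` states per time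
step: at time `t` in state `q` it reads the input bit number `var t q` and moves to the state
`next t q b`, where `b` is the value of that bit; `out q` is the output in state `q`.
Every branching program with at most `W` nodes is of this form. -/
structure BranchingProgram (N W : ℕ) where
  start : Fin W
  var : ℕ → Fin W → Fin N
  next : ℕ → Fin W → Bool → Fin W
  out : Fin W → Bool

/-- The state after `t` steps on the input `z`. -/
def BranchingProgram.state {N W : ℕ} (P : BranchingProgram N W) (z : Fin N → Bool) : ℕ → Fin W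
  | 0 => P.start
  | t + 1 => P.next t (P.state z t) (z (P.var t (P.state z t)))

/-- The output after `T` steps on the input `z`. -/
def BranchingProgram.eval {N W : ℕ} (P : BranchingProgram N W) (T : ℕ) (z : Fin N → Bool) :
    Bool :=
  P.out (P.state z T)

/-- Bit number `i` of the word `z`, as an element of the field with two elements (`0` outside
the word). -/
def bitAt {N : ℕ} (z : Fin N → Bool) (i : ℕ) : ZMod 2 :=
  if h : i < N then (if z ⟨i, h⟩ then 1 else 0) else 0

/-- The hard function on `N` bits. Put `n = N / 27`, `l` = least number with `2 n ≤ 3 ^ l`,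
`w = 2 * 3 ^ l` and `g = X ^ w + X ^ (3 ^ l) + 1`, an irreducible polynomial over the field with
two elements. The input contains three words `x, x', y` of `n` bits and two words `α, β` of `w`
bits; `α` is read as an element of `F_2[X] / (g)`. The value is
`∑ x_a x'_a' y_b ⟨β, α ^ (a + n a' + n ^ 2 b) mod g⟩`. -/
noncomputable def hard (N : ℕ) (z : Fin N → Bool) : Bool :=
  let n := N / 27
  let l := Nat.clog 3 (2 * n)
  let w := 2 * 3 ^ l
  let g : (ZMod 2)[X] := X ^ w + X ^ (3 ^ l) + 1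
  let α : (ZMod 2)[X] := ∑ i ∈ range w, C (bitAt z (3 * n + i)) * X ^ i
  decide (∑ a ∈ range n, ∑ a' ∈ range n, ∑ b ∈ range n,
    (bitAt z a * bitAt z (n + a') * bitAt z (2 * n + b)) *
      (∑ j ∈ range w, bitAt z (3 * n + w + j) *
        ((α ^ (a + n * a' + n ^ 2 * b)) %ₘ g).coeff j) = 1)

/-- The program as a program of the general theory. -/
def toBP {N W : ℕ} (P : BranchingProgram N W) : TSP.BP (Fin N) (Fin W) :=
  ⟨P.start, P.var, P.next, P.out⟩

theorem state_eq {N W : ℕ} (P : BranchingProgram N W) (z : Fin N → Bool) (t : ℕ) :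
    (toBP P).run z (toBP P).start 0 t = P.state z t := by
  induction t with
  | zero => rfl
  | succ t ih =>
    simp only [TSP.BP.run, BranchingProgram.state, ih, zero_add]
    rfl

/-- numbers of bits -/
theorem size_le (N : ℕ) (hN : 27 ≤ N) :
    3 * (N / 27) + 4 * 3 ^ Nat.clog 3 (2 * (N / 27)) ≤ N := by
  have hn : 1 ≤ N / 27 := by omega
  set n := N / 27 with hndef
  set l := Nat.clog 3 (2 * n) with hl
  have h1 : 3 ^ l ≤ 6 * n := by
    rcases Nat.eq_zero_or_pos l with h0 | h0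
    · rw [h0]; omega
    · have h2 : 3 ^ (l - 1) < 2 * n := by
        rw [hl]
        exact Nat.pow_pred_clog_lt_self (by norm_num) (by omega)
      have h3 : 3 ^ l = 3 * 3 ^ (l - 1) := by
        rw [← pow_succ']
        congr 1
        omega
      omega
  omega

theorem hard_gen (N n l : ℕ) (hsize : 3 * n + 4 * 3 ^ l ≤ N) (z : Fin N → Bool) :
    ∑ a ∈ range n, ∑ a' ∈ range n, ∑ b ∈ range n,
      (bitAt z a * bitAt z (n + a') * bitAt z (2 * n + b)) *
        (∑ j ∈ range (2 * 3 ^ l), bitAt z (3 * n + 2 * 3 ^ l + j) *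
          (((∑ i ∈ range (2 * 3 ^ l), C (bitAt z (3 * n + i)) * X ^ i) ^
            (a + n * a' + n ^ 2 * b)) %ₘ (X ^ (2 * 3 ^ l) + X ^ (3 ^ l) + 1)).coeff j) =
      TSP.fn n l (fun v => z (TSP.pos n l N hsize v)) := by
  have hbit : ∀ (i : ℕ) (h : i < N), bitAt z i = TSP.bit (z ⟨i, h⟩) := by
    intro i h
    unfold bitAt TSP.bit
    rw [dif_pos h]
  unfold TSP.fn
  simp only [Finset.sum_range]
  refine sum_congr rfl fun a _ => sum_congr rfl fun a' _ => sum_congr rfl fun b _ => ?_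
  have ha := a.2
  have ha' := a'.2
  have hb := b.2
  unfold TSP.cf TSP.coef TSP.pol TSP.tri3
  have e1 : bitAt z a = TSP.bit (z (TSP.pos n l N hsize (Sum.inl (0, a)))) := by
    rw [hbit a (by omega)]
    congr 2
    apply Fin.ext
    simp [TSP.pos]
  have e2 : bitAt z (n + a') = TSP.bit (z (TSP.pos n l N hsize (Sum.inl (1, a')))) := by
    rw [hbit (n + a') (by omega)]
    congr 2
    apply Fin.ext
    simp [TSP.pos]
  have e3 : bitAt z (2 * n + b) = TSP.bit (z (TSP.pos n l N hsize (Sum.inl (2, b)))) := by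
    rw [hbit (2 * n + b) (by omega)]
    congr 2
  have e4 : ∀ j : Fin (2 * 3 ^ l), bitAt z (3 * n + j) =
      TSP.bit (z (TSP.pos n l N hsize (Sum.inr (0, j)))) := by
    intro j
    have := j.2
    rw [hbit (3 * n + j) (by omega)]
    congr 2
    apply Fin.ext
    simp [TSP.pos]
  have e5 : ∀ j : Fin (2 * 3 ^ l), bitAt z (3 * n + 2 * 3 ^ l + j) =
      TSP.bit (z (TSP.pos n l N hsize (Sum.inr (1, j)))) := by
    intro j
    have := j.2
    rw [hbit (3 * n + 2 * 3 ^ l + j) (by omega)]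
    congr 2
    apply Fin.ext
    simp [TSP.pos]
  simp only [e1, e2, e3, e4, e5]
  generalize (∑ j : Fin (2 * 3 ^ l), TSP.bit (z (TSP.pos n l N hsize (Sum.inr (1, j)))) *
    ((((∑ i : Fin (2 * 3 ^ l), C (TSP.bit (z (TSP.pos n l N hsize (Sum.inr (0, i))))) *
      X ^ (i : ℕ)) ^ ((a : ℕ) + n * a' + n ^ 2 * b)) %ₘ
        (X ^ (2 * 3 ^ l) + X ^ (3 ^ l) + 1 : (ZMod 2)[X])).coeff (j : ℕ))) = t
  ring

theorem hard_eq (N : ℕ) (hN : 27 ≤ N) (z : Fin N → Bool) :
    hard N z = decide (TSP.fn (N / 27) (Nat.clog 3 (2 * (N / 27)))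
      (fun v => z (TSP.pos (N / 27) (Nat.clog 3 (2 * (N / 27))) N (size_le N hN) v)) = 1) := by
  rw [← hard_gen N (N / 27) (Nat.clog 3 (2 * (N / 27))) (size_le N hN) z]
  rfl

/-- The average of the product of signs in terms of the number of agreements. -/
theorem agree_of_ex {N : ℕ} (f : (Fin N → Bool) → ZMod 2) (p : (Fin N → Bool) → Bool) (γ : ℝ)
    (h : |TSP.ex fun z => TSP.chi (f z) * TSP.sg (p z)| ≤ γ) :
    ((univ.filter fun z => p z = decide (f z = 1)).card : ℝ) ≤ (1 / 2 + γ / 2) * 2 ^ N := by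
  have h01 : ∀ a : ZMod 2, a = 0 ∨ a = 1 := by decide
  have e : ∀ z, TSP.chi (f z) * TSP.sg (p z) =
      2 * (if p z = decide (f z = 1) then (1 : ℝ) else 0) - 1 := by
    intro z
    unfold TSP.chi TSP.sg
    rcases h01 (f z) with h | h <;> rw [h] <;> cases p z <;> norm_num
  simp only [e] at h
  have h2 := (abs_le.1 h).2
  unfold TSP.ex at h2
  rw [sum_sub_distrib, ← mul_sum, sum_boole] at h2
  simp only [sum_const, card_univ, nsmul_eq_mul, mul_one] at h2
  have hc : (Fintype.card (Fin N → Bool) : ℝ) = 2 ^ N := by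
    rw [Fintype.card_fun, Fintype.card_bool, Fintype.card_fin]
    push_cast; rfl
  rw [hc, div_le_iff₀ (by positivity)] at h2
  linarith

theorem logs {N n S : ℕ} (hS : 1 ≤ S) (h1 : (N : ℝ) ≤ 54 * n) (h2 : n ≤ N)
    (h3 : Real.exp (Real.exp 1) ≤ (n : ℝ) / S) (h4 : 54 ≤ (n : ℝ) / S) :
    1 / 8640 * ((N : ℝ) * (Real.log (N / S) / Real.log (Real.log (N / S)))) ≤
      1 / 80 * (n * (Real.log (n / S) / Real.log (Real.log (n / S)))) := by
  have hS0 : (0 : ℝ) < S := by exact_mod_cast hS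
  have hx0 : 0 < (n : ℝ) / S := by linarith
  have hnN : (n : ℝ) / S ≤ (N : ℝ) / S := by
    gcongr
  have hx1 : Real.exp 1 ≤ Real.log ((n : ℝ) / S) := by
    rw [Real.le_log_iff_exp_le hx0]; exact h3
  have hx1' : 0 < Real.log ((n : ℝ) / S) := lt_of_lt_of_le (Real.exp_pos _) hx1
  have hy1 : 1 ≤ Real.log (Real.log ((n : ℝ) / S)) := by
    rw [Real.le_log_iff_exp_le hx1']; exact hx1
  have hlogle : Real.log ((n : ℝ) / S) ≤ Real.log ((N : ℝ) / S) := Real.log_le_log hx0 hnN
  have hyle : Real.log (Real.log ((n : ℝ) / S)) ≤ Real.log (Real.log ((N : ℝ) / S)) :=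
    Real.log_le_log hx1' hlogle
  have hlog2 : Real.log ((N : ℝ) / S) ≤ 2 * Real.log ((n : ℝ) / S) := by
    have e1 : (N : ℝ) / S ≤ ((n : ℝ) / S) * ((n : ℝ) / S) := by
      calc (N : ℝ) / S ≤ 54 * n / S := by gcongr
        _ = 54 * (n / S) := by ring
        _ ≤ _ := by gcongr
    calc Real.log ((N : ℝ) / S) ≤ Real.log (((n : ℝ) / S) * ((n : ℝ) / S)) :=
          Real.log_le_log (lt_of_lt_of_le hx0 hnN) e1
      _ = 2 * Real.log ((n : ℝ) / S) := by
          rw [Real.log_mul hx0.ne' hx0.ne']; ring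
  have e2 : Real.log ((N : ℝ) / S) / Real.log (Real.log ((N : ℝ) / S)) ≤
      2 * Real.log ((n : ℝ) / S) / Real.log (Real.log ((n : ℝ) / S)) := by
    gcongr
  have e3 : (N : ℝ) * (Real.log ((N : ℝ) / S) / Real.log (Real.log ((N : ℝ) / S))) ≤
      (54 * n) * (2 * Real.log ((n : ℝ) / S) / Real.log (Real.log ((n : ℝ) / S))) := by
    apply mul_le_mul h1 e2 _ (by positivity)
    apply div_nonneg (by linarith) (by linarith)
  calc 1 / 8640 * ((N : ℝ) * (Real.log (N / S) / Real.log (Real.log (N / S))))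
      ≤ 1 / 8640 * ((54 * n) *
        (2 * Real.log ((n : ℝ) / S) / Real.log (Real.log ((n : ℝ) / S)))) := by gcongr
    _ = _ := by ring

/-- **Main theorem.** There are a constant `c > 0` and a number `R` such that for all `N, S, T`
with `N / S ≥ R` and `T ≤ c * N * log (N / S) / log log (N / S)` the following holds: for every
random branching program (a probability distribution `p` on branching programs `P ω` with
`2 ^ S` states per time step), the probability that the output after `T` steps on a uniformly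
random input equals `hard N` is at most `1 / 2 + (S / N) ^ c`. -/
theorem result : ∃ c : ℝ, 0 < c ∧ ∃ R : ℝ, ∀ N S T : ℕ, 1 ≤ S → R * S ≤ N →
    (T : ℝ) ≤ c * (N * (Real.log (N / S) / Real.log (Real.log (N / S)))) →
    ∀ (Ω : Type) [Fintype Ω] (p : Ω → ℝ) (P : Ω → BranchingProgram N (2 ^ S)),
      (∀ ω, 0 ≤ p ω) → ∑ ω, p ω = 1 →
      ∑ ω, p ω * (((univ.filter fun z => (P ω).eval T z = hard N z).card : ℝ) / 2 ^ N) ≤
        1 / 2 + ((S : ℝ) / N) ^ c := by
  classical
  obtain ⟨k₀, h₀⟩ := TSP.final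
  obtain ⟨R, hR1, hR⟩ := TSP.choose_k2 (max k₀ 1)
  refine ⟨1 / 8640, by norm_num, 54 * R + 54 * Real.exp (Real.exp 1) + 54 * 54,
    fun N S T hS hN hT => ?_⟩
  have hS1 : (1 : ℝ) ≤ S := by exact_mod_cast hS
  have hS0 : (0 : ℝ) < S := by linarith
  have hE : 0 < Real.exp (Real.exp 1) := Real.exp_pos _
  have hN1 : 54 * (R * S) ≤ N := by nlinarith [mul_pos hE hS0]
  have hN2 : 54 * (Real.exp (Real.exp 1) * S) ≤ N := by nlinarith [mul_pos hE hS0]
  have hN3 : 54 * (54 * (S : ℝ)) ≤ N := by nlinarith [mul_pos hE hS0]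
  have hN4 : 54 * 54 ≤ N := by
    have : (54 * 54 : ℝ) ≤ N := by linarith
    exact_mod_cast this
  have hN0 : (0 : ℝ) < N := by
    have : (54 * 54 : ℝ) ≤ N := by exact_mod_cast hN4
    linarith
  set n := N / 27 with hn
  have hnN : N ≤ 54 * n := by omega
  have hnN' : (N : ℝ) ≤ 54 * n := by exact_mod_cast hnN
  have hnle : n ≤ N := Nat.div_le_self _ _
  have hn1 : 1 ≤ n := by omega
  have h27 : 27 ≤ N := by omega
  have hRS : R * S ≤ n := by linarith
  have hlogs := logs hS hnN' hnle (by rw [le_div_iff₀ hS0]; linarith)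
    (by rw [le_div_iff₀ hS0]; linarith)
  obtain ⟨k, hk, hk1, hk2, hk3⟩ := hR n S T hS hRS (hT.trans hlogs)
  have hkk : k₀ ≤ k := (le_max_left _ _).trans hk
  have hkpos : 0 < k := lt_of_lt_of_le one_pos ((le_max_right _ _).trans hk)
  have hkposR : (0 : ℝ) < k := by exact_mod_cast hkpos
  have hl : 4 * n ≤ 2 * 3 ^ Nat.clog 3 (2 * n) := by
    have := Nat.le_pow_clog (by norm_num : 1 < 3) (2 * n)
    omega
  have hadv : 1 / (k : ℝ) ^ k / 2 ≤ ((S : ℝ) / N) ^ (1 / 8640 : ℝ) := by
    have hnS0 : (0 : ℝ) < (n : ℝ) / S := by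
      have : (0 : ℝ) < n := by exact_mod_cast hn1
      positivity
    have hNS0 : (0 : ℝ) < (N : ℝ) / S := by positivity
    have e1 : (N : ℝ) / S ≤ ((n : ℝ) / S) ^ (2 : ℝ) := by
      have h54 : 54 ≤ (n : ℝ) / S := by rw [le_div_iff₀ hS0]; linarith
      rw [Real.rpow_two]
      calc (N : ℝ) / S ≤ 54 * n / S := by gcongr
        _ = 54 * (n / S) := by ring
        _ ≤ ((n : ℝ) / S) * ((n : ℝ) / S) := by gcongr
        _ = _ := by ring
    have e2 : ((N : ℝ) / S) ^ (1 / 8640 : ℝ) ≤ (k : ℝ) ^ k := by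
      calc ((N : ℝ) / S) ^ (1 / 8640 : ℝ) ≤ (((n : ℝ) / S) ^ (2 : ℝ)) ^ (1 / 8640 : ℝ) :=
            Real.rpow_le_rpow hNS0.le e1 (by norm_num)
        _ = ((n : ℝ) / S) ^ (2 * (1 / 8640) : ℝ) := by rw [← Real.rpow_mul hnS0.le]
        _ ≤ ((n : ℝ) / S) ^ (1 / 320 : ℝ) := by
            apply Real.rpow_le_rpow_of_exponent_le
            · rw [le_div_iff₀ hS0]; linarith
            · norm_num
        _ ≤ (k : ℝ) ^ k := hk3
    have e3 : ((S : ℝ) / N) ^ (1 / 8640 : ℝ) = 1 / ((N : ℝ) / S) ^ (1 / 8640 : ℝ) := by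
      have h0 : (S : ℝ) / N = ((N : ℝ) / S)⁻¹ := (inv_div _ _).symm
      rw [h0, Real.inv_rpow hNS0.le, inv_eq_one_div]
    have e4 : 0 < ((N : ℝ) / S) ^ (1 / 8640 : ℝ) := Real.rpow_pos_of_pos hNS0 _
    rw [e3]
    have e5 : 1 / (k : ℝ) ^ k ≤ 1 / ((N : ℝ) / S) ^ (1 / 8640 : ℝ) :=
      one_div_le_one_div_of_le e4 e2
    have e6 : 0 ≤ 1 / (k : ℝ) ^ k := by positivity
    linarith
  have key : ∀ P : BranchingProgram N (2 ^ S),
      ((univ.filter fun z => P.eval T z = hard N z).card : ℝ) ≤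
        (1 / 2 + ((S : ℝ) / N) ^ (1 / 8640 : ℝ)) * 2 ^ N := by
    intro P
    have h1 := TSP.transfer hn1 (TSP.pos n (Nat.clog 3 (2 * n)) N (size_le N h27))
      (TSP.pos_injective _ _ _ _) (1 / (k : ℝ) ^ k) (by positivity)
      (fun Q => h₀ k n S (Nat.clog 3 (2 * n)) hkk hS hk1 hl Q T hk2) (toBP P)
    have h2 := agree_of_ex (fun z => TSP.fn n (Nat.clog 3 (2 * n))
      (fun v => z (TSP.pos n (Nat.clog 3 (2 * n)) N (size_le N h27) v)))
      (fun z => P.eval T z) (1 / (k : ℝ) ^ k) (by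
        refine le_trans (le_of_eq ?_) h1
        congr 2
        funext z
        rw [state_eq]
        rfl)
    simp only [hard_eq N h27]
    refine h2.trans ?_
    gcongr
  intro Ω _ p P hp hsum
  have h3 : ∑ ω, p ω * (((univ.filter fun z => (P ω).eval T z = hard N z).card : ℝ) / 2 ^ N) ≤
      ∑ ω, p ω * (1 / 2 + ((S : ℝ) / N) ^ (1 / 8640 : ℝ)) := by
    refine sum_le_sum fun ω _ => mul_le_mul_of_nonneg_left ?_ (hp ω)
    rw [div_le_iff₀ (by positivity)]
    exact key (P ω)
  refine h3.trans (le_of_eq ?_)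
  rw [← sum_mul, hsum, one_mul]

end Pool.Agent.Results.MP_b6562f_lc.TimeSpace
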