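import Pool.Agent.SALES.Reduction
import Pool.Agent.SALES.FinalCore5
import Pool.Agent.LIFT.Average4

/-!
# Randomised semidefinite relaxations of the travelling salesman problem
-/

set_option autoImplicit false

open scoped BigOperators Matrix

namespace Pool.Agent.Results.MP_b6562f_lc.TravellingSalesman

/-- An instance of the travelling salesman problem with the cities `0, ..., n - 1`: a symmetric
distance function with values `1` and `2`. -/
structure Instance (n : ℕ) where
  dist : Fin n → Fin n → ℝ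
  symm : ∀ u v, dist u v = dist v u
  val : ∀ u v, dist u v = 1 ∨ dist u v = 2

/-- The permutation `C` is a tour (`C v` is the city after `v`): it is a single cycle through all
cities. -/
def IsTour {n : ℕ} (C : Equiv.Perm (Fin n)) : Prop := C.IsCycleOn Set.univ

/-- The length of the tour `C`. -/
def Instance.length {n : ℕ} (I : Instance n) (C : Equiv.Perm (Fin n)) : ℝ :=
  ∑ v, I.dist v (C v)

/-- A semidefinite relaxation of the travelling salesman problem with `n` cities: its variables are
a real `size × size` matrix and `free` real numbers, subject to arbitrary affine equations (they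
define the affine subspace `space`); every instance has an arbitrary affine objective function. -/
structure Relaxation (n : ℕ) where
  free : ℕ
  size : ℕ
  space : AffineSubspace ℝ ((Fin free → ℝ) × Matrix (Fin size) (Fin size) ℝ)
  obj : Instance n → ((Fin free → ℝ) × Matrix (Fin size) (Fin size) ℝ) →ᵃ[ℝ] ℝ

/-- The feasible points: the equations hold and the matrix is positive semidefinite. -/
def Relaxation.feasible {n : ℕ} (R : Relaxation n) :
    Set ((Fin R.free → ℝ) × Matrix (Fin R.size) (Fin R.size) ℝ) :=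
  {p | p ∈ R.space ∧ p.2.PosSemidef}

/-- The tour `C` is represented in the relaxation: there is a feasible point at which the objective
function of every instance is the length of `C` in this instance. -/
def Relaxation.Represents {n : ℕ} (R : Relaxation n) (C : Equiv.Perm (Fin n)) : Prop :=
  ∃ p ∈ R.feasible, ∀ I, R.obj I p = I.length C

/-- The relaxation certifies that all tours of the instance `I` are longer than `θ`: its objective
function is greater than `θ` at all feasible points. -/
def Relaxation.Certifies {n : ℕ} (R : Relaxation n) (θ : ℝ) (I : Instance n) : Prop :=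
  ∀ p ∈ R.feasible, θ < R.obj I p

open Classical in
/-- **Theorem.** There is `δ > 0` such that for every `η > 0` there is `c > 0` such that the
following holds for all large `n`. Let `R` be a random semidefinite relaxation of the travelling
salesman problem with `n` cities and distances `1` and `2` (a probability distribution `p` on
relaxations `R ω`) with expected size less than `exp (c n)` which represents every tour with
probability at least `α`. Then there is an instance, all of whose tours have length at least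
`(1 + δ) n`, for which `R` certifies that all tours are longer than `(1 + exp (- c n)) n` with
probability less than `1 - α + η`. -/
theorem result : ∃ δ : ℝ, 0 < δ ∧ ∀ η : ℝ, 0 < η → ∃ c : ℝ, 0 < c ∧ ∃ n₀ : ℕ, ∀ n : ℕ, n₀ ≤ n →
    ∀ (Ω : Type) [Fintype Ω] (p : Ω → ℝ) (R : Ω → Relaxation n) (α : ℝ),
    (∀ ω, 0 ≤ p ω) → ∑ ω, p ω = 1 → ∑ ω, p ω * ((R ω).size : ℝ) < Real.exp (c * n) →
    (∀ C, IsTour C → α ≤ ∑ ω, if (R ω).Represents C then p ω else 0) →
    ∃ I : Instance n, (∀ C, IsTour C → (1 + δ) * n ≤ I.length C) ∧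
      (∑ ω, if (R ω).Certifies ((1 + Real.exp (-(c * n))) * n) I then p ω else 0)
        < 1 - α + η := by
  obtain ⟨b, Δ, C₀, hb, hΔ, hcore⟩ := SALES.final_core5 (1 / 4) (by norm_num)
  set C₁ : ℕ := 3 * (9 * (Δ * b ^ 3) + (2 + 3 * (24 * Δ * b ^ 3)) + 1) + 1 with hC₁
  have hC₁pos : (0 : ℝ) < C₁ := by positivity
  have hbΔ : 1 ≤ Δ * b ^ 3 := Nat.one_le_iff_ne_zero.2 (by positivity)
  have hΔ' : (0 : ℝ) < Δ := by exact_mod_cast hΔ
  set δ : ℝ := 1 / (32 * Δ * C₁ * (C₀ + 1)) with hδ
  have hδ0 : 0 < δ := by positivity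
  refine ⟨δ, hδ0, fun η hη => ?_⟩
  set γ : ℝ := min (η / 4) 1 with hγ
  have hγ0 : 0 < γ := lt_min (by positivity) one_pos
  have hγ1 : γ ≤ 1 := min_le_right _ _
  have hγη : γ ≤ η / 4 := min_le_left _ _
  obtain ⟨c, hc, n₀, hn⟩ := hcore γ hγ0 hγ1
  set c' : ℝ := c / (4 * C₁) with hc'
  have hc'0 : 0 < c' := by positivity
  -- large sizes are unlikely
  obtain ⟨n₁, hn₁⟩ : ∃ n₁ : ℕ, ∀ n : ℕ, n₁ ≤ n → Real.exp (-(c' * n)) ≤ η / 8 := by
    have h3 : Filter.Tendsto (fun n : ℕ => Real.exp (-(c' * n))) Filter.atTop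
        (nhds 0) := by
      refine Real.tendsto_exp_neg_atTop_nhds_zero.comp ?_
      exact Filter.Tendsto.const_mul_atTop (by positivity) tendsto_natCast_atTop_atTop
    have h4 := h3.eventually (ge_mem_nhds (by positivity : (0 : ℝ) < η / 8))
    exact Filter.eventually_atTop.1 h4
  refine ⟨c', hc'0, max (C₁ * (n₀ + 2)) n₁, fun n hn0 Ω _ p R α hp hp1 hsize hα => ?_⟩
  have hnC : C₁ * (n₀ + 2) ≤ n := (le_max_left _ _).trans hn0
  -- the parameter of the core
  set N : ℕ := n / C₁ with hN
  have hC₁1 : 0 < C₁ := by positivity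
  have hN0 : n₀ + 2 ≤ N := by
    rw [hN, Nat.le_div_iff_mul_le hC₁1]
    linarith
  have hNn : N * C₁ ≤ n := Nat.div_mul_le_self _ _
  have hnN : n < (N + 1) * C₁ := by
    have h1 := Nat.div_add_mod n C₁
    have h2 := Nat.mod_lt n hC₁1
    rw [← hN] at h1
    have h3 : (N + 1) * C₁ = C₁ * N + C₁ := by ring
    omega
  obtain ⟨m, M, A, s, mu, hm, hM, hmb, hMΔ, hMC, hA, hdeg, hval, hrow, hpos, hno⟩ :=
    hn N (by omega)
  have hM' : (0 : ℝ) < M := by exact_mod_cast hM
  have hn' : (0 : ℝ) < n := by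
    have : 0 < n := lt_of_lt_of_le (by positivity) hnC
    exact_mod_cast this
  have hNn' : (N : ℝ) * C₁ ≤ n := by exact_mod_cast hNn
  have hnN' : (n : ℝ) < (N + 1) * C₁ := by exact_mod_cast hnN
  have hN1 : (2 : ℝ) ≤ N := by
    have : 2 ≤ N := by omega
    exact_mod_cast this
  have hn2N : (n : ℝ) ≤ 2 * N * C₁ := by nlinarith
  -- the instances
  obtain ⟨T, dist, hT, hd12, hdsymm, hlen, hlow⟩ := SALES.reduction (Δ := Δ) hm hb hM hΔ A s hA
    hdeg (fun y => by
      have := hval y
      norm_num at this ⊢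
      convert this) n (by
      have h1 : M * b ^ 3 ≤ N * (Δ * b ^ 3) := by
        calc M * b ^ 3 ≤ (Δ * N) * b ^ 3 := Nat.mul_le_mul_right _ hMΔ
          _ = _ := by ring
      have h2 : m * b * (2 + 3 * (24 * Δ * b ^ 3)) ≤ N * (2 + 3 * (24 * Δ * b ^ 3)) :=
        Nat.mul_le_mul_right _ hmb
      have h3 : 3 * (9 * (M * b ^ 3) + m * b * (2 + 3 * (24 * Δ * b ^ 3)) + 1)
          ≤ 3 * (9 * (N * (Δ * b ^ 3)) + N * (2 + 3 * (24 * Δ * b ^ 3)) + N) := by
        omega
      have h4 : 3 * (9 * (N * (Δ * b ^ 3)) + N * (2 + 3 * (24 * Δ * b ^ 3)) + N) + N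
          = N * C₁ := by
        rw [hC₁]
        ring
      omega)
  let I : (Fin m → Fin b) → Instance n := fun S =>
    { dist := dist S, symm := hdsymm S, val := hd12 S }
  have hI : ∀ S C, (I S).length C = ∑ v, dist S v (C v) := fun S C => rfl
  have hlow' : ∀ S C, IsTour C → (1 + δ) * n ≤ (I S).length C := by
    intro S C hC
    refine le_trans ?_ (hlow S C hC)
    have h1 : δ * n ≤ M / (16 * Δ) := by
      rw [hδ, one_div, inv_mul_le_iff₀ (by positivity), mul_div_assoc', le_div_iff₀ (by positivity)]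
      have h2 : (N : ℝ) ≤ C₀ * M := by exact_mod_cast hMC
      have h3 : (N : ℝ) ≤ (C₀ + 1) * M := by linarith
      calc (n : ℝ) * (16 * Δ) ≤ (2 * N * C₁) * (16 * Δ) :=
            mul_le_mul_of_nonneg_right hn2N (by positivity)
        _ = (32 * Δ * C₁) * N := by ring
        _ ≤ (32 * Δ * C₁) * ((C₀ + 1) * M) := mul_le_mul_of_nonneg_left h3 (by positivity)
        _ = _ := by ring
    linarith
  by_contra hcon
  push Not at hcon
  set θ : ℝ := (1 + Real.exp (-(c' * n))) * n with hθ
  let 𝒳 : Ω → Finset (Fin m × Fin b → Bool) := fun ω => Finset.univ.filter fun x =>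
    (R ω).Represents (T x)
  let 𝒮 : Ω → Finset (Fin m → Fin b) := fun ω => Finset.univ.filter fun S =>
    (R ω).Certifies θ (I S)
  have hcardY : ((Fintype.card (Fin m → Fin b) : ℕ) : ℝ) = (b : ℝ) ^ m := by
    rw [Fintype.card_fun, Fintype.card_fin, Fintype.card_fin, Nat.cast_pow]
  have : Nonempty (Fin m → Fin b) := ⟨fun _ => ⟨0, hb⟩⟩
  have hcN : 2 * (c' * n) ≤ c * N := by
    rw [hc']
    have : 2 * (c / (4 * C₁) * n) = c * (n / (2 * C₁)) := by
      field_simp
      ring
    rw [this]
    refine mul_le_mul_of_nonneg_left ?_ hc.le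
    rw [div_le_iff₀ (by positivity)]
    linarith
  -- a good relaxation
  obtain ⟨ω, hsmall, hrect⟩ := LIFT.average4 p (fun ω => ((R ω).size : ℝ)) hp hp1
    (fun ω => Nat.cast_nonneg _) mu (2 ^ (m * b)) (by positivity) γ η α (Real.exp (c * N))
    (Real.exp (c' * n)) hγ0 hγη hγ1 (Real.exp_pos _) hsize.le (by
      refine le_trans ?_ (hn₁ n ((le_max_right _ _).trans hn0))
      rw [← Real.exp_sub]
      exact Real.exp_le_exp.2 (by linarith)) hrow (by
      rw [hcardY]
      exact hpos) 𝒳 𝒮 (fun x => by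
        refine (hα (T x) (hT x)).trans (le_of_eq ?_)
        refine Finset.sum_congr rfl fun ω _ => ?_
        simp only [𝒳, Finset.mem_filter, Finset.mem_univ, true_and]) (by
        have h1 : ∑ _S : Fin m → Fin b, (1 - α + η) ≤ ∑ S : Fin m → Fin b,
            ∑ ω, if (R ω).Certifies θ (I S) then p ω else 0 :=
          Finset.sum_le_sum fun S _ => hcon (I S) (hlow' S)
        rw [Finset.sum_const, Finset.card_univ, nsmul_eq_mul, mul_comm] at h1
        refine h1.trans (le_of_eq ?_)
        rw [Finset.sum_comm]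
        refine Finset.sum_congr rfl fun ω _ => ?_
        rw [← Finset.sum_filter, Finset.sum_const, nsmul_eq_mul, mul_comm])
  rw [hcardY] at hrect
  have hrep : ∀ x ∈ 𝒳 ω, ∃ q ∈ (R ω).feasible, ∀ I, (R ω).obj I q
      = I.length (T x) := fun x hx => (Finset.mem_filter.1 hx).2
  let pt : (Fin m × Fin b → Bool) →
      (Fin (R ω).free → ℝ) × Matrix (Fin (R ω).size) (Fin (R ω).size) ℝ :=
    fun x => if h : x ∈ 𝒳 ω then (hrep x h).choose else 0
  have hpt : ∀ x ∈ 𝒳 ω, pt x ∈ (R ω).feasible ∧
      ∀ I, (R ω).obj I (pt x) = I.length (T x) := by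
    intro x hx
    have := (hrep x hx).choose_spec
    simp only [pt, hx, dif_pos]
    exact this
  let obj : (Fin m → Fin b) →
      ((Fin (R ω).free → ℝ) × Matrix (Fin (R ω).size) (Fin (R ω).size) ℝ) →ᵃ[ℝ] ℝ :=
    fun S => AffineMap.const ℝ _ (1 + n / (4 * M) : ℝ) - (1 / (4 * M) : ℝ) • (R ω).obj (I S)
  have hobj : ∀ S q, obj S q = 1 + n / (4 * M) - 1 / (4 * M) * (R ω).obj (I S) q :=
    fun S q => rfl
  refine hno (R ω).size (Fin (R ω).free → ℝ) (R ω).space (𝒳 ω) (𝒮 ω) pt obj hsmall hrect
    (fun x hx => (hpt x hx).1) (fun S _ x hx => ?_) (fun S hS q hq hq2 => ?_)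
  · rw [hobj, (hpt x hx).2, hI, hlen]
    field_simp
    ring
  · have h9 : θ < (R ω).obj (I S) q := (Finset.mem_filter.1 hS).2 q ⟨hq, hq2⟩
    rw [hobj]
    have h10 : 4 * (M : ℝ) ≤ n := by
      have h1 : (M : ℝ) ≤ Δ * N := by exact_mod_cast hMΔ
      have h2 : (4 * Δ : ℝ) ≤ C₁ := by
        have : 4 * Δ ≤ C₁ := by
          rw [hC₁]
          have hb3 : 1 ≤ b ^ 3 := Nat.one_le_pow _ _ hb
          nlinarith [Nat.mul_le_mul_left Δ hb3]
        exact_mod_cast this
      calc 4 * (M : ℝ) ≤ 4 * (Δ * N) := by linarith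
        _ = (4 * Δ) * N := by ring
        _ ≤ C₁ * N := mul_le_mul_of_nonneg_right h2 (by linarith)
        _ ≤ n := by linarith
    have h11 : Real.exp (-(c * N)) ≤ Real.exp (-(c' * n)) := by
      refine Real.exp_le_exp.2 ?_
      have : 0 ≤ c' * n := by positivity
      linarith
    have h12 : 0 < Real.exp (-(c' * n)) := Real.exp_pos _
    have h13 : 1 / (4 * (M : ℝ)) * θ < 1 / (4 * (M : ℝ)) * (R ω).obj (I S) q :=
      mul_lt_mul_of_pos_left h9 (by positivity)
    have h14 : 1 / (4 * (M : ℝ)) * θ = n / (4 * M) + Real.exp (-(c' * n)) * (n / (4 * M)) := by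
      rw [hθ]
      field_simp
    have h15 : 1 ≤ (n : ℝ) / (4 * M) := by
      rw [le_div_iff₀ (by positivity)]
      linarith
    have h16 : Real.exp (-(c' * n)) ≤ Real.exp (-(c' * n)) * (n / (4 * M)) := by
      nlinarith
    linarith

end Pool.Agent.Results.MP_b6562f_lc.TravellingSalesman
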